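import Pool.Agent.Q189.Polar2

/-!
# MP_84aa88_gt: a non-canonical mean width preserving symmetrization in the plane
-/

set_option autoImplicit false

open MeasureTheory Set

namespace Pool.Agent.Results.MP_84aa88_gt.NotCanonical

/-- The Euclidean plane. -/
abbrev E2 : Type := EuclideanSpace ℝ (Fin 2)

/-- The family `𝓚²` of nonempty compact convex subsets of the plane. -/
def K2 : Set (Set E2) := {K | IsCompact K ∧ Convex ℝ K ∧ K.Nonempty}

/-- The support function `h_K(v) = sup {⟨y, v⟩ : y ∈ K}`. -/
noncomputable def supportFunction (K : Set E2) (v : E2) : ℝ :=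
  sSup ((fun y : E2 => inner ℝ y v) '' K)

/-- The first intrinsic volume in the plane, which is half of the perimeter, by Cauchy's formula
(the perimeter is the integral of `h_K(cos θ, sin θ)` over `[0, 2π]`). -/
noncomputable def V1 (K : Set E2) : ℝ :=
  (1 / 2) * ∫ θ in (0 : ℝ)..(2 * Real.pi), supportFunction K !₂[Real.cos θ, Real.sin θ]

/-- `D` is a symmetrization `𝓚² → 𝓚²_{o}`. -/
def IsSymmetrization (D : Set E2 → Set E2) : Prop := ∀ K ∈ K2, D K ∈ K2 ∧ -(D K) = D K

/-- `D` is monotonic. -/
def Monotonic (D : Set E2 → Set E2) : Prop := ∀ K ∈ K2, ∀ L ∈ K2, K ⊆ L → D K ⊆ D L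

/-- `D` is invariant on `o`-symmetric sets. -/
def InvariantOnSymmetric (D : Set E2 → Set E2) : Prop := ∀ K ∈ K2, -K = K → D K = K

/-- `D` is `V₁`-preserving. -/
def V1Preserving (D : Set E2 → Set E2) : Prop := ∀ K ∈ K2, V1 (D K) = V1 K

/-- `D` is canonical: it maps every line segment to a line segment. -/
def Canonical (D : Set E2 → Set E2) : Prop := ∀ a b : E2, ∃ c d : E2,
  D (segment ℝ a b) = segment ℝ c d

open Pool.Agent.S13718 in
theorem V_eq (K : Set E2) (hK : IsCompact K) (hne : K.Nonempty) :
    V K = ((∫ r in Ioi (0 : ℝ), r ^ 2 * Real.exp (-r ^ 2)) * 2) * V1 K := by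
  have hhom : ∀ (c : ℝ) (v : E2), 0 < c → supp K (c • v) = c * supp K v := by
    intro c v hc
    apply le_antisymm
    · apply supp_le hne
      intro y hy
      rw [inner_smul_right]
      exact mul_le_mul_of_nonneg_left (le_supp hK hy v) hc.le
    · obtain ⟨y, hy, h⟩ := supp_attained hK hne v
      rw [← h]
      have := le_supp hK hy (c • v)
      rwa [inner_smul_right] at this
  have h1 := Q189.Polar2.polar (supp K) hhom
  have h2 : ∫ θ in Ioo (-Real.pi) Real.pi, supp K (WithLp.toLp 2 ![Real.cos θ, Real.sin θ]) =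
      ∫ θ in (0 : ℝ)..(2 * Real.pi), supportFunction K !₂[Real.cos θ, Real.sin θ] := by
    rw [← integral_Ioc_eq_integral_Ioo, ← intervalIntegral.integral_of_le
      (by linarith [Real.pi_pos])]
    have hper : Function.Periodic
        (fun θ : ℝ => supportFunction K !₂[Real.cos θ, Real.sin θ]) (2 * Real.pi) := by
      intro θ
      simp only [Real.cos_add_two_pi, Real.sin_add_two_pi]
    have := hper.intervalIntegral_add_eq (-Real.pi) 0
    have e1 : -Real.pi + 2 * Real.pi = Real.pi := by ring
    rw [e1, zero_add] at this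
    exact this
  rw [h2] at h1
  unfold V1
  calc V K = _ := h1
    _ = _ := by ring

/-- **Theorem.** There is a symmetrization `D` of the nonempty compact convex subsets of the plane
which is monotonic, invariant on `o`-symmetric sets and `V₁`-preserving, and which maps every line
segment not collinear with the origin to a set which is not a line segment; in particular it is not
canonical. -/
theorem result : ∃ D : Set E2 → Set E2, IsSymmetrization D ∧ Monotonic D ∧
    InvariantOnSymmetric D ∧ V1Preserving D ∧ ¬ Canonical D ∧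
    ∀ a b : E2, LinearIndependent ℝ ![a, b] → ¬ ∃ c d : E2, D (segment ℝ a b) = segment ℝ c d := by
  have hC : 0 < ∫ r in Ioi (0 : ℝ), r ^ 2 * Real.exp (-r ^ 2) := by
    have h := Q189.Polar2.polar (fun v => ‖v‖) (fun c v hc => by
      rw [norm_smul, Real.norm_of_nonneg hc.le])
    have hpos : 0 < ∫ v : E2, ‖v‖ * Real.exp (-‖v‖ ^ 2) := by
      refine Pool.Agent.S13718.integral_pos_aux (v := !₂[1, 0]) (by fun_prop)
        (fun v => by positivity) Pool.Agent.S13718.gauss_integrable ?_
      have : (0 : ℝ) < ‖(!₂[1, 0] : E2)‖ := by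
        rw [norm_pos_iff]
        intro h
        have := congrFun (congrArg (fun x : E2 => x.ofLp) h) 0
        simp at this
      positivity
    rw [h] at hpos
    have h0 : 0 ≤ ∫ r in Ioi (0 : ℝ), r ^ 2 * Real.exp (-r ^ 2) :=
      integral_nonneg fun r => by positivity
    rcases h0.eq_or_lt with h1 | h1
    · rw [← h1, zero_mul] at hpos
      exact absurd hpos (lt_irrefl _)
    · exact h1
  have hnot : ∀ a b : E2, LinearIndependent ℝ ![a, b] →
      ¬ ∃ c d : E2, Pool.Agent.S13718.D (segment ℝ a b) = segment ℝ c d := by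
    rintro a b hab ⟨c, d, hcd⟩
    have hK : IsCompact (segment ℝ a b) := by
      rw [segment_eq_image_lineMap]
      exact isCompact_Icc.image (AffineMap.lineMap_continuous)
    have hne : (segment ℝ a b).Nonempty := ⟨a, left_mem_segment ℝ a b⟩
    have hnab : a ≠ b := by
      intro h
      have := (LinearIndependent.pair_iff.1 hab) 1 (-1) (by rw [h]; simp)
      norm_num at this
    have hV := Pool.Agent.S13718.V_pos hK (left_mem_segment ℝ a b) (right_mem_segment ℝ a b) hnab
    have hlam := Pool.Agent.S13718.lam_pos hK hne hV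
    set l := Pool.Agent.S13718.lam (segment ℝ a b) with hl
    have h0 : (0 : E2) ∈ segment ℝ c d := by
      rw [← hcd]
      exact ⟨0, Pool.Agent.S13718.zero_mem_NN hne, by simp⟩
    have hmem : ∀ x ∈ segment ℝ a b, (l / 2) • x ∈ segment ℝ c d := by
      intro x hx
      rw [← hcd]
      refine ⟨(1 / 2 : ℝ) • (x - 0), ⟨x, Pool.Agent.S13718.subset_cone0 _ hx, 0,
        Pool.Agent.S13718.zero_mem_cone0 hne, rfl⟩, ?_⟩
      rw [← hl, sub_zero, smul_smul]
      congr 1
      ring
    have ha := hmem a (left_mem_segment ℝ a b)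
    have hb := hmem b (right_mem_segment ℝ a b)
    rw [segment_eq_image'] at h0 ha hb
    obtain ⟨t0, -, ht0⟩ := h0
    obtain ⟨ta, -, hta⟩ := ha
    obtain ⟨tb, -, htb⟩ := hb
    simp only at ht0 hta htb
    -- `a` and `b` are multiples of `d - c`
    have ea : (l / 2) • a = (ta - t0) • (d - c) := by
      rw [← hta]
      have : c = -(t0 • (d - c)) := eq_neg_of_add_eq_zero_left ht0
      nth_rewrite 1 [this]
      module
    have eb : (l / 2) • b = (tb - t0) • (d - c) := by
      rw [← htb]
      have : c = -(t0 • (d - c)) := eq_neg_of_add_eq_zero_left ht0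
      nth_rewrite 1 [this]
      module
    have hdep := (LinearIndependent.pair_iff.1 hab) ((tb - t0) * (l / 2)) (-((ta - t0) * (l / 2)))
      (by
        rw [mul_smul, neg_smul, mul_smul, ea, eb]
        module)
    have hl2 : l / 2 ≠ 0 := by positivity
    have h1 : ta - t0 = 0 := by
      have := hdep.2
      rw [neg_eq_zero, mul_eq_zero] at this
      exact this.resolve_right hl2
    rw [h1, zero_smul] at ea
    have ha0 : a = 0 := (smul_eq_zero.1 ea).resolve_left hl2
    have := (LinearIndependent.pair_iff.1 hab) 1 0 (by rw [ha0]; simp)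
    norm_num at this
  refine ⟨Pool.Agent.S13718.D, ?_, ?_, ?_, ?_, ?_, hnot⟩
  · rintro K ⟨hK, hc, hne⟩
    refine ⟨⟨Pool.Agent.S13718.D_compact hK, Pool.Agent.S13718.D_convex hc,
      Pool.Agent.S13718.D_nonempty hne⟩, ?_⟩
    ext x
    constructor
    · intro hx
      have := Pool.Agent.S13718.D_neg hx
      rwa [neg_neg] at this
    · intro hx
      exact Pool.Agent.S13718.D_neg hx
  · rintro K ⟨hK, hc, hne⟩ L ⟨hL, hcL, hneL⟩ h
    exact Pool.Agent.S13718.D_mono hK hne hL hcL h
  · rintro K ⟨hK, hc, hne⟩ hs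
    refine Pool.Agent.S13718.D_eq_of_symm hK hc hne fun x hx => ?_
    rw [← hs]
    simpa using hx
  · rintro K ⟨hK, hc, hne⟩
    have h1 := Pool.Agent.S13718.V_D hK hne
    rw [V_eq K hK hne, V_eq _ (Pool.Agent.S13718.D_compact hK)
      (Pool.Agent.S13718.D_nonempty hne)] at h1
    exact mul_left_cancel₀ (by positivity) h1
  · intro hcan
    have hli : LinearIndependent ℝ ![(!₂[1, 0] : E2), !₂[0, 1]] := by
      rw [LinearIndependent.pair_iff]
      intro s t hst
      have h0 := congrFun (congrArg (fun x : E2 => x.ofLp) hst) 0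
      have h1 := congrFun (congrArg (fun x : E2 => x.ofLp) hst) 1
      simp at h0 h1
      exact ⟨h0, h1⟩
    exact hnot _ _ hli (hcan _ _)

end Pool.Agent.Results.MP_84aa88_gt.NotCanonical
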